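import Pool.Agent.Helper48.Lang.Goals

/-!
# Packet LG-CNT (project LANG 1953, MP_c7dfba_nt): counting
-/

namespace Pool.Agent.Helper27.Lang

open Pool.Agent.Helper48.Lang

theorem exists_M (i : ℕ) (s n : ℝ) (h : s < n) :
    ∃ M : ℕ, 1 ≤ M ∧ s * (1 + 1 / (M : ℝ)) ^ i < n := by
  have h1 : Filter.Tendsto (fun M : ℕ => s * (1 + 1 / (M : ℝ)) ^ i) Filter.atTop
      (nhds (s * (1 + 0) ^ i)) :=
    ((tendsto_const_nhds.add tendsto_one_div_atTop_nhds_zero_nat).pow i).const_mul s
  have h2 : s * (1 + 0) ^ i < n := by simpa using h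
  obtain ⟨M, hM⟩ := ((h1.eventually_lt_const h2).and (Filter.eventually_ge_atTop 1)).exists
  exact ⟨M, hM.2, hM.1⟩

theorem c_cnt : S_CNT := by
  intro i n r C d a hd hs ha1 haC
  by_contra hcon
  push Not at hcon
  have hn : (0 : ℝ) < n := by
    have : 0 < n := lt_of_le_of_lt (Nat.zero_le _) hs
    exact_mod_cast this
  set s : ℝ := ∑ j, (d j : ℝ) ^ i with hsdef
  have hs' : s < n := by
    rw [hsdef]
    exact_mod_cast hs
  have hs0 : 0 ≤ s := Finset.sum_nonneg fun j _ => by positivity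
  obtain ⟨M, hM1, hM⟩ := exists_M i s n hs'
  have hM0 : (0 : ℝ) < M := by exact_mod_cast hM1
  set θ : ℝ := s * (1 + 1 / (M : ℝ)) ^ i / n with hθ
  have hθ0 : 0 ≤ θ := by positivity
  have hθ1 : θ < 1 := by
    rw [hθ, div_lt_one hn]
    exact hM
  have claim : ∀ k m : ℕ, M ≤ m → (a m : ℝ) ≤ θ ^ k * C * (m : ℝ) ^ i := by
    intro k
    induction k with
    | zero =>
      intro m hm
      rw [pow_zero, one_mul]
      exact_mod_cast haC m (hM1.trans hm)
    | succ k ih =>
      intro m hm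
      have hm1 : 1 ≤ m := hM1.trans hm
      have hm0 : (0 : ℝ) ≤ m := Nat.cast_nonneg m
      have h1 : (n : ℝ) * a m ≤ ∑ j, (a (d j * (m + 1)) : ℝ) := by
        exact_mod_cast hcon m hm1
      have h2 : ∑ j, (a (d j * (m + 1)) : ℝ) ≤
          ∑ j, θ ^ k * C * ((d j : ℝ) ^ i * ((m : ℝ) + 1) ^ i) := by
        refine Finset.sum_le_sum fun j _ => ?_
        have hle : M ≤ d j * (m + 1) := by
          have := hd j
          nlinarith
        refine (ih _ hle).trans (le_of_eq ?_)
        push_cast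
        rw [mul_pow]
      have h3 : ∑ j, θ ^ k * C * ((d j : ℝ) ^ i * ((m : ℝ) + 1) ^ i) =
          θ ^ k * C * s * ((m : ℝ) + 1) ^ i := by
        rw [hsdef, ← Finset.mul_sum, ← Finset.sum_mul]
        ring
      have h4 : ((m : ℝ) + 1) ^ i ≤ (1 + 1 / (M : ℝ)) ^ i * (m : ℝ) ^ i := by
        rw [← mul_pow]
        refine pow_le_pow_left₀ (by positivity) ?_ i
        have : 1 ≤ (m : ℝ) / M := by
          rw [le_div_iff₀ hM0, one_mul]
          exact_mod_cast hm
        have e : (1 + 1 / (M : ℝ)) * m = m + m / M := by ring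
        rw [e]
        linarith
      have h5 : (n : ℝ) * a m ≤ n * (θ ^ (k + 1) * C * (m : ℝ) ^ i) := by
        calc (n : ℝ) * a m ≤ θ ^ k * C * s * ((m : ℝ) + 1) ^ i := by
              rw [← h3]
              exact h1.trans h2
          _ ≤ θ ^ k * C * s * ((1 + 1 / (M : ℝ)) ^ i * (m : ℝ) ^ i) :=
              mul_le_mul_of_nonneg_left h4 (by positivity)
          _ = n * (θ ^ (k + 1) * C * (m : ℝ) ^ i) := by
              have e : s * (1 + 1 / (M : ℝ)) ^ i = n * θ := by
                rw [hθ]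
                field_simp
              calc θ ^ k * C * s * ((1 + 1 / (M : ℝ)) ^ i * (m : ℝ) ^ i)
                  = θ ^ k * C * (s * (1 + 1 / (M : ℝ)) ^ i) * (m : ℝ) ^ i := by ring
                _ = _ := by
                  rw [e, pow_succ]
                  ring
      exact le_of_mul_le_mul_left h5 hn
  have hlim : Filter.Tendsto (fun k : ℕ => θ ^ k * C * (M : ℝ) ^ i) Filter.atTop
      (nhds (0 * C * (M : ℝ) ^ i)) :=
    ((tendsto_pow_atTop_nhds_zero_of_lt_one hθ0 hθ1).mul_const _).mul_const _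
  have hle : (a M : ℝ) ≤ 0 * C * (M : ℝ) ^ i :=
    ge_of_tendsto' hlim fun k => claim k M le_rfl
  have h1 : (1 : ℝ) ≤ a M := by exact_mod_cast ha1 M hM1
  rw [zero_mul, zero_mul] at hle
  linarith

end Pool.Agent.Helper27.Lang
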