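import Pool.Agent.Helper98.Lang.Defs

/-! # Packet P6: powers of Hooley's function are bounded by the number of close tuples -/

set_option autoImplicit false

open Finset

namespace Pool.Agent.Helper27.Lang

open Pool.Agent.Helper98.Lang

theorem ddnq : GDDNQ := by
  intro q n _ hn
  have hne : n.divisors.Nonempty := ⟨1, Nat.one_mem_divisors.2 hn⟩
  obtain ⟨d, hd, hdd⟩ := Finset.exists_mem_eq_sup n.divisors hne (win n)
  have hDD : DD n = win n d := hdd
  rw [hDD]
  unfold win NQ
  rw [← Fintype.card_piFinset_const]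
  apply Finset.card_le_card
  intro f hf
  rw [Fintype.mem_piFinset] at hf
  unfold tup
  rw [mem_filter, Fintype.mem_piFinset]
  refine ⟨fun i => (mem_filter.1 (hf i)).1, fun i j => ?_⟩
  have h1 := (mem_filter.1 (hf i)).2.2
  have h2 := (mem_filter.1 (hf j)).2.1
  have h3 : (d : ℝ) ≤ (f j : ℝ) := by exact_mod_cast h2
  exact h1.trans (mul_le_mul_of_nonneg_left h3 (Real.exp_pos 1).le)

end Pool.Agent.Helper27.Lang
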