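import Pool.Agent.Helper48.Lang.Goals

/-!
Packet LG-MPR: the minimum principle over the real numbers, from MIN and CERT.
-/

set_option autoImplicit false

namespace Pool.Agent.Helper27.Lang

open MvPolynomial Pool.Agent.Helper48.Lang

theorem pd_comm {σ k : Type*} [CommRing k] (p q : σ) (P : MvPolynomial σ k) :
    pderiv p (pderiv q P) = pderiv q (pderiv p P) := by
  classical
  induction P using MvPolynomial.induction_on with
  | C a => simp
  | add P Q hP hQ => simp [hP, hQ]
  | mul_X P i hP =>
    rw [pderiv_mul, pderiv_mul, map_add, map_add, pderiv_mul, pderiv_mul, pderiv_mul, pderiv_mul, hP]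
    have e : ∀ a b : σ, pderiv a (pderiv b (X i : MvPolynomial σ k)) = 0 := by
      intro a b
      rw [pderiv_X]
      by_cases h : i = b
      · subst h; simp
      · rw [Pi.single_eq_of_ne (fun h' => h h')]; simp
    rw [e, e]
    ring

theorem c_mpr (h1 : S_MIN) (h2 : S_CERT) : S_MPR := by
  intro N k F D hN hD hF
  obtain ⟨x, hx, hmin⟩ := h1 N k F D hN hD hF
  set g : ℝ := ∑ l, eval x (F l) ^ 2 with hg
  set S : Matrix (Fin N) (Fin N) ℝ := Matrix.of fun p q =>
    ∑ l, eval x (F l) * eval x (pderiv p (pderiv q (F l))) - g * (if p = q then 1 else 0) with hS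
  set A : Fin k → Fin N → ℝ := fun l p => eval x (pderiv p (F l)) with hA
  have hSt : S.transpose = S := by
    ext p q
    simp only [Matrix.transpose_apply, hS, Matrix.of_apply]
    congr 1
    · exact Finset.sum_congr rfl fun l _ => by rw [pd_comm]
    · by_cases h : p = q
      · subst h; rfl
      · rw [if_neg h, if_neg (fun h' => h h'.symm)]
  obtain ⟨L, M, hLM⟩ := h2 N k S A hSt (by
    intro v hv
    have h3 := hmin v (fun l => hv l)
    have h4 : ∑ p, ∑ q, S p q * (v p * v q)
        = ∑ l, eval x (F l) * D2 (F l) x v - g * ∑ p, v p ^ 2 := by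
      simp only [hS, Matrix.of_apply, sub_mul, Finset.sum_sub_distrib]
      congr 1
      · unfold D2
        simp only [Finset.mul_sum, Finset.sum_mul]
        rw [Finset.sum_congr rfl fun p _ => Finset.sum_comm]
        rw [Finset.sum_comm]
        exact Finset.sum_congr rfl fun l _ => Finset.sum_congr rfl fun p _ =>
          Finset.sum_congr rfl fun q _ => by ring
      · rw [Finset.mul_sum]
        refine Finset.sum_congr rfl fun p _ => ?_
        rw [Finset.sum_eq_single p]
        · rw [if_pos rfl]; ring
        · intro q _ hq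
          rw [if_neg (fun h => hq h.symm)]; ring
        · intro h; exact absurd (Finset.mem_univ _) h
    rw [h4]
    linarith)
  refine ⟨x, L, M, hx, fun p q => ?_⟩
  have h5 := hLM p q
  simp only [hS, Matrix.of_apply] at h5
  have h6 : ∑ l, eval x (F l) * eval x (pderiv p (pderiv q (F l)))
      = g * (if p = q then 1 else 0) + (∑ a, L a p * L a q + ∑ l, (M l p * A l q + M l q * A l p)) := by
    linarith
  rw [h6, ← add_assoc]

end Pool.Agent.Helper27.Lang
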